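import Pool.Agent.H867.FT.Gen10

/-!
# DUB: dual bases for Frobenius (helper789, board task FTX of helper867)
-/

namespace Pool.Agent.H789.FT867DUB

open Pool.Agent.H867.FT

/-- A finitely generated module over a domain has, up to a common denominator, a finite dual
basis. -/
theorem dualBasis (R M : Type) [CommRing R] [IsDomain R] [AddCommGroup M] [Module R M]
    [Module.Finite R M] :
    ∃ (n : ℕ) (u : Fin n → M) (φ : Fin n → M →ₗ[R] R) (c : R), c ≠ 0 ∧
      ∀ m, c • m = ∑ j, φ j m • u j := by
  classical
  obtain ⟨k, v, hv⟩ := Module.Finite.exists_fin (R := R) (M := M)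
  -- a maximal linearly independent subfamily
  have hne : (∅ : Finset (Fin k)) ∈
      (Finset.univ.filter fun s : Finset (Fin k) => LinearIndepOn R v (s : Set (Fin k))) := by
    simp
  obtain ⟨s, -, hs⟩ := Finset.exists_le_maximal _ hne
  have hsi : LinearIndepOn R v (s : Set (Fin k)) := by
    have := hs.1
    simpa using this
  have hmax : ∀ i, ∃ r : R, r ≠ 0 ∧ r • v i ∈ Submodule.span R (v '' (s : Set (Fin k))) := by
    intro i
    by_cases his : i ∈ s
    · exact ⟨1, one_ne_zero, by
        rw [one_smul]
        exact Submodule.subset_span ⟨i, his, rfl⟩⟩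
    · by_contra hcon
      push Not at hcon
      have h1 : LinearIndepOn R v (insert i (s : Set (Fin k))) :=
        hsi.insert' fun r hr => by
          by_contra h0
          exact hcon r h0 hr
      have h2 : insert i s ∈
          (Finset.univ.filter fun s : Finset (Fin k) => LinearIndepOn R v (s : Set (Fin k))) := by
        simpa using h1
      have h3 := hs.2 h2 (Finset.subset_insert i s)
      exact his (h3 (Finset.mem_insert_self i s))
  choose r hr0 hr using hmax
  have hc : ∏ i, r i ≠ 0 := Finset.prod_ne_zero_iff.2 fun i _ => hr0 i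
  set N : Submodule R M := Submodule.span R (v '' (s : Set (Fin k))) with hN
  have hmem : ∀ m : M, (∏ i, r i) • m ∈ N := by
    intro m
    have hm : m ∈ Submodule.span R (Set.range v) := by rw [hv]; trivial
    induction hm using Submodule.span_induction with
    | mem x hx =>
      obtain ⟨i, rfl⟩ := hx
      rw [← Finset.prod_erase_mul _ _ (Finset.mem_univ i), mul_smul]
      exact N.smul_mem _ (hr i)
    | zero => simp
    | add x y _ _ hx hy => rw [smul_add]; exact N.add_mem hx hy
    | smul a x _ hx => rw [smul_comm]; exact N.smul_mem a hx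
  -- basis of N
  have hli : LinearIndependent R (fun j : s => v j) := hsi
  let b0 := Module.Basis.span hli
  have hrange : Set.range (fun j : s => v j) = v '' (s : Set (Fin k)) := by
    ext x; simp
  have hspan : Submodule.span R (Set.range (fun j : s => v j)) = N := by rw [hrange]
  let e : s ≃ Fin (Fintype.card s) := Fintype.equivFin s
  -- coordinates
  let cR : M →ₗ[R] Submodule.span R (Set.range (fun j : s => v j)) :=
    LinearMap.codRestrict _ (LinearMap.lsmul R M (∏ i, r i)) (fun m => by
      rw [hspan]; exact hmem m)
  refine ⟨Fintype.card s, fun j => v (e.symm j), fun j => (b0.coord (e.symm j)).comp cR,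
    ∏ i, r i, hc, ?_⟩
  intro m
  have h1 : (cR m : M) = (∏ i, r i) • m := rfl
  have h2 : cR m = ∑ j : s, (b0.repr (cR m) j) • b0 j := (b0.sum_repr (cR m)).symm
  have h3 : (cR m : M) = ∑ j : s, (b0.repr (cR m) j) • v j := by
    conv_lhs => rw [h2]
    rw [Submodule.coe_sum]
    refine Finset.sum_congr rfl fun j _ => ?_
    rw [Submodule.coe_smul]
    congr 1
    exact congrArg Subtype.val (Module.Basis.span_apply hli j)
  rw [← h1, h3]
  exact Fintype.sum_equiv e _ _ fun j => by simp [b0]

/-- The iterated Frobenius is finite. -/
theorem iter_finite (p e : ℕ) [Fact p.Prime] (R : Type) [CommRing R] [CharP R p]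
    (h : (frobenius R p).Finite) : (iterateFrobenius R p e).Finite := by
  induction e with
  | zero => rw [iterateFrobenius_zero]; exact RingHom.Finite.id R
  | succ n ih =>
    have : iterateFrobenius R p (n + 1) = (iterateFrobenius R p n).comp (frobenius R p) := by
      ext x
      rw [iterateFrobenius_add_apply, iterateFrobenius_one_apply]
      rfl
    rw [this]
    exact ih.comp h

/-- `R` as a module over itself through a ring endomorphism. -/
def Tw (R : Type) [CommRing R] (_ : R →+* R) : Type := R

instance (R : Type) [CommRing R] (F : R →+* R) : AddCommGroup (Tw R F) :=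
  inferInstanceAs (AddCommGroup R)

instance (R : Type) [CommRing R] (F : R →+* R) : Module R (Tw R F) :=
  (RingHom.toAlgebra F).toModule

theorem tw_smul (R : Type) [CommRing R] (F : R →+* R) (r : R) (m : Tw R F) :
    (r • m : Tw R F) = (F r * (show R from m) : R) := rfl

theorem dub : S_DUB := by
  intro p e _ R _ _ _ hF
  have hfin := iter_finite p e R hF
  have : Module.Finite R (Tw R (iterateFrobenius R p e)) := hfin
  obtain ⟨n, u, φ, c, hc, h⟩ := dualBasis R (Tw R (iterateFrobenius R p e))
  refine ⟨n, u, fun j => (φ j).toAddMonoidHom, c, hc, ?_, ?_⟩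
  · intro j r s
    have h1 := (φ j).map_smul r (show Tw R (iterateFrobenius R p e) from s)
    rw [smul_eq_mul] at h1
    exact h1
  · intro r
    exact h r

end Pool.Agent.H789.FT867DUB
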